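import Pool.Agent.U79.GZ.Stm

/-!
# Project GZ, package NRM: norms have trivial Hilbert symbols (the real place and the odd primes)
-/

set_option autoImplicit false

namespace Pool.Agent.U730.GZ

open Pool.Agent.U79.GZ
open Pool.Agent.U79.GY (s4)

lemma nz_eq_zero {p : ℕ} {z : ℤ} (h : IsSquare (z : ZMod p)) : nz p z = 0 := by
  unfold nz
  rw [if_pos h]

/-- the symbol of `- x t²` -/
lemma nz_neg_mul {p : ℕ} [hpp : Fact p.Prime] (hp2 : p ≠ 2) {x y : ℤ} {t : ZMod p}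
    (hx : (x : ZMod p) ≠ 0) (ht : t ≠ 0) (h : (y : ZMod p) = -((x : ZMod p) * t ^ 2)) :
    nz p y = s4 p + nz p x := by
  classical
  have hc : ringChar (ZMod p) ≠ 2 := by rwa [ZMod.ringChar_zmod_n]
  have hy : (y : ZMod p) ≠ 0 := by
    rw [h]
    exact neg_ne_zero.2 (mul_ne_zero hx (pow_ne_zero 2 ht))
  have h1 : quadraticChar (ZMod p) (y : ZMod p) =
      quadraticChar (ZMod p) (-1) * quadraticChar (ZMod p) (x : ZMod p) := by
    rw [h, show -((x : ZMod p) * t ^ 2) = (-1) * (x : ZMod p) * t ^ 2 by ring, map_mul, map_mul,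
      quadraticChar_sq_one' ht, mul_one]
  have hm1 : (-1 : ZMod p) ≠ 0 := neg_ne_zero.2 one_ne_zero
  have e1 : IsSquare (-1 : ZMod p) ↔ p % 4 ≠ 3 := ZMod.exists_sq_eq_neg_one_iff
  have hs4 : s4 p = if IsSquare (-1 : ZMod p) then 0 else 1 := by
    unfold s4
    by_cases h4 : p % 4 = 3
    · rw [if_pos h4, if_neg (fun hh => (e1.1 hh) h4)]
    · rw [if_neg h4, if_pos (e1.2 h4)]
  rw [hs4]
  unfold nz
  have q1 : ∀ {a : ZMod p}, a ≠ 0 → (quadraticChar (ZMod p) a = 1 ↔ IsSquare a) :=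
    fun ha => quadraticChar_one_iff_isSquare ha
  have q2 : ∀ {a : ZMod p}, (quadraticChar (ZMod p) a = -1 ↔ ¬IsSquare a) :=
    fun {a} => quadraticChar_neg_one_iff_not_isSquare
  by_cases a1 : IsSquare (-1 : ZMod p) <;> by_cases a2 : IsSquare (x : ZMod p)
  · rw [(q1 hm1).2 a1, (q1 hx).2 a2, mul_one, q1 hy] at h1
    rw [if_pos h1, if_pos a1, if_pos a2, add_zero]
  · rw [(q1 hm1).2 a1, q2.2 a2, one_mul, q2] at h1
    rw [if_neg h1, if_pos a1, if_neg a2, zero_add]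
  · rw [q2.2 a1, (q1 hx).2 a2, mul_one, q2] at h1
    rw [if_neg h1, if_neg a1, if_pos a2, add_zero]
  · rw [q2.2 a1, q2.2 a2, neg_one_mul, neg_neg, q1 hy] at h1
    rw [if_pos h1, if_neg a1, if_neg a2]
    decide

/-- the unit part is prime to `p` -/
lemma unit_part {p : ℕ} [hpp : Fact p.Prime] {x : ℤ} (hx : x ≠ 0) :
    x = (p : ℤ) ^ padicValInt p x * (x / (p : ℤ) ^ padicValInt p x) ∧
      ¬ (p : ℤ) ∣ x / (p : ℤ) ^ padicValInt p x := by
  have h1 : (p : ℤ) ^ padicValInt p x ∣ x := by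
    rw [padicValInt_dvd_iff]
    exact Or.inr le_rfl
  have h2 := Int.mul_ediv_cancel' h1
  refine ⟨h2.symm, fun h3 => ?_⟩
  have h4 : (p : ℤ) ^ (padicValInt p x + 1) ∣ x := by
    rw [pow_succ]
    nth_rw 2 [← h2]
    exact mul_dvd_mul_left _ h3
  rw [padicValInt_dvd_iff] at h4
  rcases h4 with h4 | h4
  · exact hx h4
  · omega

/-- a primitive representation -/
lemma primitive {p : ℕ} [hpp : Fact p.Prime] {s t : ℚ_[p]} (h : s ≠ 0 ∨ t ≠ 0) :
    ∃ (k : ℤ) (S T : ℤ_[p]), (S : ℚ_[p]) = (p : ℚ_[p]) ^ k * s ∧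
      (T : ℚ_[p]) = (p : ℚ_[p]) ^ k * t ∧
      (PadicInt.toZMod S ≠ 0 ∨ PadicInt.toZMod T ≠ 0) := by
  have hp1 : (1 : ℝ) < p := by exact_mod_cast hpp.out.one_lt
  have hp0 : (0 : ℝ) < p := by linarith
  have key : ∀ {a b : ℚ_[p]}, a ≠ 0 → ‖b‖ ≤ ‖a‖ → ∃ (k : ℤ),
      ‖(p : ℚ_[p]) ^ k * a‖ = 1 ∧ ‖(p : ℚ_[p]) ^ k * b‖ ≤ 1 := by
    intro a b ha hab
    have e : ‖(p : ℚ_[p]) ^ (-a.valuation)‖ * ‖a‖ = 1 := by
      rw [norm_zpow, Padic.norm_p, Padic.norm_eq_zpow_neg_valuation ha, inv_zpow,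
        ← zpow_neg, neg_neg, ← zpow_add₀ hp0.ne', add_neg_cancel, zpow_zero]
    refine ⟨-a.valuation, ?_, ?_⟩
    · rw [norm_mul, e]
    · calc ‖(p : ℚ_[p]) ^ (-a.valuation) * b‖ = ‖(p : ℚ_[p]) ^ (-a.valuation)‖ * ‖b‖ := norm_mul _ _
        _ ≤ ‖(p : ℚ_[p]) ^ (-a.valuation)‖ * ‖a‖ := by gcongr
        _ = 1 := e
  have hz : ∀ a : ℤ_[p], ‖(a : ℚ_[p])‖ = 1 → PadicInt.toZMod a ≠ 0 := by
    intro a ha h0
    have h1 : a ∈ RingHom.ker (PadicInt.toZMod (p := p)) := h0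
    rw [PadicInt.ker_toZMod, PadicInt.maximalIdeal_eq_span_p, Ideal.mem_span_singleton,
      ← PadicInt.norm_lt_one_iff_dvd] at h1
    rw [PadicInt.norm_def] at h1
    linarith
  rcases le_total ‖t‖ ‖s‖ with hst | hst
  · have hs : s ≠ 0 := by
      rcases h with h | h
      · exact h
      · intro h0
        rw [h0, norm_zero] at hst
        exact h (norm_le_zero_iff.1 hst)
    obtain ⟨k, h1, h2⟩ := key hs hst
    exact ⟨k, ⟨_, h1.le⟩, ⟨_, h2⟩, rfl, rfl, Or.inl (hz _ h1)⟩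
  · have ht : t ≠ 0 := by
      rcases h with h | h
      · intro h0
        rw [h0, norm_zero] at hst
        exact h (norm_le_zero_iff.1 hst)
      · exact h
    obtain ⟨k, h1, h2⟩ := key ht hst
    exact ⟨k, ⟨_, h2⟩, ⟨_, h1.le⟩, rfl, rfl, Or.inr (hz _ h1)⟩

lemma toZMod_int {p : ℕ} [hpp : Fact p.Prime] (z : ℤ) :
    PadicInt.toZMod (p := p) (z : ℤ_[p]) = (z : ZMod p) := map_intCast _ _

/-- an integral form of the equation: `p^M y' = S² - p^ε x' T²` -/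
lemma integral_form {p : ℕ} [hpp : Fact p.Prime] {x y : ℤ} (hx : x ≠ 0) (hy : y ≠ 0)
    (h : ∃ s t : ℚ_[p], (y : ℚ_[p]) = s ^ 2 - x * t ^ 2) :
    ∃ (M : ℕ) (S T : ℤ_[p]), M % 2 = padicValInt p y % 2 ∧
      (p : ℤ_[p]) ^ M * ((y / (p : ℤ) ^ padicValInt p y : ℤ) : ℤ_[p]) =
        S ^ 2 - (p : ℤ_[p]) ^ (padicValInt p x % 2) *
          ((x / (p : ℤ) ^ padicValInt p x : ℤ) : ℤ_[p]) * T ^ 2 ∧
      (PadicInt.toZMod S ≠ 0 ∨ PadicInt.toZMod T ≠ 0) := by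
  obtain ⟨s, t, h⟩ := h
  obtain ⟨ex, -⟩ := unit_part (p := p) hx
  obtain ⟨ey, hny⟩ := unit_part (p := p) hy
  obtain ⟨α, hα⟩ : ∃ α, α = padicValInt p x := ⟨_, rfl⟩
  obtain ⟨β, hβ⟩ : ∃ β, β = padicValInt p y := ⟨_, rfl⟩
  obtain ⟨x', hx'⟩ : ∃ x', x' = x / (p : ℤ) ^ padicValInt p x := ⟨_, rfl⟩
  obtain ⟨y', hy'⟩ : ∃ y', y' = y / (p : ℤ) ^ padicValInt p y := ⟨_, rfl⟩
  rw [← hx', ← hα] at ex
  rw [← hy', ← hβ] at ey
  rw [← hy'] at hny
  rw [← hx', ← hy', ← hα, ← hβ]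
  have hp1 : (1 : ℝ) < p := by exact_mod_cast hpp.out.one_lt
  have hp0 : (0 : ℝ) < p := by linarith
  have hpQ : (p : ℚ_[p]) ≠ 0 := by exact_mod_cast hpp.out.ne_zero
  have hst : s ≠ 0 ∨ (p : ℚ_[p]) ^ (α / 2) * t ≠ 0 := by
    by_contra hcon
    push Not at hcon
    obtain ⟨h1, h2⟩ := hcon
    have h3 : t = 0 := by
      rcases mul_eq_zero.1 h2 with h3 | h3
      · exact absurd h3 (pow_ne_zero _ hpQ)
      · exact h3
    rw [h1, h3] at h
    apply hy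
    have : (y : ℚ_[p]) = 0 := by rw [h]; ring
    exact_mod_cast this
  obtain ⟨k, S, T, hS, hT, hprim⟩ := primitive hst
  have hx2 : (x : ℚ_[p]) = (p : ℚ_[p]) ^ (α % 2) * ((p : ℚ_[p]) ^ (α / 2)) ^ 2 * (x' : ℚ_[p]) := by
    rw [ex]
    push_cast
    rw [← pow_mul, ← pow_add]
    congr 2
    omega
  have hy2 : (y : ℚ_[p]) = (p : ℚ_[p]) ^ β * (y' : ℚ_[p]) := by
    rw [ey]
    push_cast
    rfl
  have hmain : (p : ℚ_[p]) ^ (2 * k + β) * (y' : ℚ_[p]) =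
      (S : ℚ_[p]) ^ 2 - (p : ℚ_[p]) ^ (α % 2) * (x' : ℚ_[p]) * (T : ℚ_[p]) ^ 2 := by
    have e1 : (p : ℚ_[p]) ^ (2 * k + β) = ((p : ℚ_[p]) ^ k) ^ 2 * (p : ℚ_[p]) ^ β := by
      rw [zpow_add₀ hpQ, zpow_natCast]
      congr 1
      rw [← zpow_natCast, ← zpow_mul]
      congr 1
      push_cast
      ring
    rw [e1, hS, hT, mul_assoc, ← hy2, h, hx2]
    ring
  have hynorm : ‖(y' : ℚ_[p])‖ = 1 := by
    have h1 : ¬ ‖(y' : ℚ_[p])‖ < 1 := by
      rw [Padic.norm_intCast_lt_one_iff]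
      exact hny
    exact le_antisymm (Padic.norm_int_le_one y') (not_lt.1 h1)
  have hR : ‖(S : ℚ_[p]) ^ 2 - (p : ℚ_[p]) ^ (α % 2) * (x' : ℚ_[p]) * (T : ℚ_[p]) ^ 2‖ ≤ 1 := by
    have e2 : (S : ℚ_[p]) ^ 2 - (p : ℚ_[p]) ^ (α % 2) * (x' : ℚ_[p]) * (T : ℚ_[p]) ^ 2 =
        ((S ^ 2 - (p : ℤ_[p]) ^ (α % 2) * (x' : ℤ_[p]) * T ^ 2 : ℤ_[p]) : ℚ_[p]) := by
      push_cast
      rfl
    rw [e2]
    exact PadicInt.norm_le_one _
  have hm : 0 ≤ 2 * k + (β : ℤ) := by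
    rw [← hmain, norm_mul, hynorm, mul_one, norm_zpow, Padic.norm_p, inv_zpow, ← zpow_neg] at hR
    by_contra hcon
    push Not at hcon
    have h5 : (1 : ℝ) < (p : ℝ) ^ (-(2 * k + (β : ℤ))) := one_lt_zpow₀ hp1 (by omega)
    linarith
  obtain ⟨M, hM⟩ := Int.eq_ofNat_of_zero_le hm
  refine ⟨M, S, T, by omega, ?_, hprim⟩
  rw [hM, zpow_natCast] at hmain
  have h6 : (((p : ℤ_[p]) ^ M * (y' : ℤ_[p]) : ℤ_[p]) : ℚ_[p]) =
      ((S ^ 2 - (p : ℤ_[p]) ^ (α % 2) * (x' : ℤ_[p]) * T ^ 2 : ℤ_[p]) : ℚ_[p]) := by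
    push_cast
    exact hmain
  exact Subtype.coe_injective h6

/-- the odd primes -/
lemma odd_case {p : ℕ} [hpp : Fact p.Prime] (hp2 : p ≠ 2) {x y : ℤ} (hx : x ≠ 0) (hy : y ≠ 0)
    (h : ∃ s t : ℚ_[p], (y : ℚ_[p]) = s ^ 2 - x * t ^ 2) : hp p x y = 0 := by
  obtain ⟨M, S, T, hM, he, hprim⟩ := integral_form hx hy h
  obtain ⟨-, hnx⟩ := unit_part (p := p) hx
  obtain ⟨-, hny⟩ := unit_part (p := p) hy
  unfold hp
  obtain ⟨α, hα⟩ : ∃ α, α = padicValInt p x := ⟨_, rfl⟩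
  obtain ⟨β, hβ⟩ : ∃ β, β = padicValInt p y := ⟨_, rfl⟩
  obtain ⟨x', hx'⟩ : ∃ x', x' = x / (p : ℤ) ^ padicValInt p x := ⟨_, rfl⟩
  obtain ⟨y', hy'⟩ : ∃ y', y' = y / (p : ℤ) ^ padicValInt p y := ⟨_, rfl⟩
  rw [← hx', ← hy', ← hα, ← hβ]
  rw [← hx', ← hy', ← hα] at he
  rw [← hx'] at hnx
  rw [← hy'] at hny
  rw [← hβ] at hM
  have hx0 : (x' : ZMod p) ≠ 0 := by
    rw [Ne, ZMod.intCast_zmod_eq_zero_iff_dvd]
    exact hnx
  have hy0 : (y' : ZMod p) ≠ 0 := by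
    rw [Ne, ZMod.intCast_zmod_eq_zero_iff_dvd]
    exact hny
  have hpz : PadicInt.toZMod (p := p) (p : ℤ_[p]) = 0 := by
    rw [map_natCast, ZMod.natCast_self]
  have heZ := congrArg (PadicInt.toZMod (p := p)) he
  simp only [map_mul, map_sub, map_pow, hpz, toZMod_int] at heZ
  rcases Nat.mod_two_eq_zero_or_one α with ha | ha
  · -- `α` even
    have ca : (α : ZMod 2) = 0 := by
      rw [ZMod.natCast_eq_zero_iff]
      omega
    rw [ca]
    simp only [zero_mul, zero_add, add_zero]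
    rcases Nat.mod_two_eq_zero_or_one β with hb | hb
    · have cb : (β : ZMod 2) = 0 := by
        rw [ZMod.natCast_eq_zero_iff]
        omega
      rw [cb, zero_mul]
    · have hM0 : M ≠ 0 := by omega
      rw [ha, zero_pow hM0, pow_zero, zero_mul, one_mul] at heZ
      have hT0 : PadicInt.toZMod T ≠ 0 := by
        intro h0
        rw [h0] at heZ
        have h1 : (PadicInt.toZMod S) ^ 2 = 0 := by
          rw [zero_pow two_ne_zero, mul_zero, sub_zero] at heZ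
          exact heZ.symm
        rcases hprim with h2 | h2
        · exact h2 (pow_eq_zero_iff two_ne_zero |>.1 h1)
        · exact h2 h0
      have hsq : IsSquare (x' : ZMod p) := by
        refine ⟨PadicInt.toZMod S / PadicInt.toZMod T, ?_⟩
        field_simp
        linear_combination heZ
      rw [nz_eq_zero hsq, mul_zero]
  · -- `α` odd
    have ca : (α : ZMod 2) = 1 := by
      have : ((α : ℕ) : ZMod 2) = ((1 : ℕ) : ZMod 2) := by
        rw [ZMod.natCast_eq_natCast_iff]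
        exact ha
      rw [this, Nat.cast_one]
    rw [ca]
    simp only [one_mul]
    by_cases hS0 : PadicInt.toZMod S = 0
    · have hT0 : PadicInt.toZMod T ≠ 0 := by
        rcases hprim with h2 | h2
        · exact absurd hS0 h2
        · exact h2
      have hM0 : M ≠ 0 := by
        intro h0
        rw [h0, ha, hS0, pow_zero, one_mul, zero_pow two_ne_zero, pow_one, zero_mul, zero_mul,
          sub_zero] at heZ
        exact hy0 heZ
      obtain ⟨M', hM'⟩ := Nat.exists_eq_succ_of_ne_zero hM0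
      have hSm : S ∈ RingHom.ker (PadicInt.toZMod (p := p)) := hS0
      rw [PadicInt.ker_toZMod, PadicInt.maximalIdeal_eq_span_p, Ideal.mem_span_singleton] at hSm
      obtain ⟨S1, hS1⟩ := hSm
      have hpZ : (p : ℤ_[p]) ≠ 0 := by exact_mod_cast hpp.out.ne_zero
      have he2 : (p : ℤ_[p]) ^ M' * (y' : ℤ_[p]) = (p : ℤ_[p]) * S1 ^ 2 - (x' : ℤ_[p]) * T ^ 2 := by
        apply mul_left_cancel₀ hpZ
        rw [hM', ha, hS1, Nat.succ_eq_add_one, pow_succ, pow_one] at he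
        linear_combination he
      have heZ2 := congrArg (PadicInt.toZMod (p := p)) he2
      simp only [map_mul, map_sub, map_pow, hpz, toZMod_int, zero_mul, zero_sub] at heZ2
      have hM'0 : M' = 0 := by
        by_contra h0
        rw [zero_pow h0, zero_mul] at heZ2
        exact neg_ne_zero.2 (mul_ne_zero hx0 (pow_ne_zero 2 hT0)) heZ2.symm
      rw [hM'0, pow_zero, one_mul] at heZ2
      have cb : (β : ZMod 2) = 1 := by
        have : ((β : ℕ) : ZMod 2) = ((1 : ℕ) : ZMod 2) := by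
          rw [ZMod.natCast_eq_natCast_iff]
          show β % 2 = 1 % 2
          omega
        rw [this, Nat.cast_one]
      rw [cb, nz_neg_mul hp2 hx0 hT0 heZ2]
      generalize s4 p = u
      generalize nz p x' = v
      revert u v
      decide
    · have hM0 : M = 0 := by
        by_contra h0
        rw [zero_pow h0, ha, pow_one, zero_mul, zero_mul, zero_mul, sub_zero] at heZ
        exact hS0 (pow_eq_zero_iff two_ne_zero |>.1 heZ.symm)
      have cb : (β : ZMod 2) = 0 := by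
        rw [ZMod.natCast_eq_zero_iff]
        omega
      rw [hM0, ha, pow_zero, one_mul, pow_one, zero_mul, zero_mul, sub_zero] at heZ
      have hsq : IsSquare (y' : ZMod p) := ⟨PadicInt.toZMod S, by rw [heZ, sq]⟩
      rw [cb, nz_eq_zero hsq]
      ring

theorem t_NRM : S_NRM := by
  intro x y hx hy
  refine ⟨?_, ?_⟩
  · rintro ⟨s, t, h⟩
    unfold hr
    rw [if_neg]
    rintro ⟨h1, h2⟩
    have h3 : (x : ℝ) < 0 := by exact_mod_cast h1
    have h4 : (y : ℝ) < 0 := by exact_mod_cast h2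
    nlinarith [sq_nonneg s, sq_nonneg t, mul_nonneg (neg_nonneg.2 h3.le) (sq_nonneg t)]
  · intro p _ hp2 h
    exact odd_case hp2 hx hy h

end Pool.Agent.U730.GZ
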